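import Pool.Agent.H811R3.PS.All

/-! The Pisot substitution conjecture for almost all substitutions: let `M` be a unimodular
irreducible Pisot matrix. Among the substitutions with incidence matrix `M ^ k` (all of them are
unimodular irreducible Pisot substitutions) the proportion of those which are not semi-conjugate
to a toral translation is at most `exp (-exp (c k))`. -/

set_option autoImplicit false

open Filter Pool.Agent.H811R3.PS

namespace Pool.Agent.Results.MP_e732b0_an.AlmostAllSubstitutions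

theorem result (n : ℕ) (hn : 1 ≤ n) (M : Matrix (Fin (n + 1)) (Fin (n + 1)) ℤ) (lam : ℝ)
    (hM : Pis M lam) (hdet : IsUnit M.det) :
    (∀ k : ℕ, 1 ≤ k → Pis (M ^ k) (lam ^ k) ∧ IsUnit (M ^ k).det ∧
      {σ : Fin (n + 1) → List (Fin (n + 1)) | inc σ = M ^ k}.Finite ∧
      {σ : Fin (n + 1) → List (Fin (n + 1)) | inc σ = M ^ k}.Nonempty) ∧
    ∃ c : ℝ, 0 < c ∧ ∀ᶠ k : ℕ in atTop,
      ({σ : Fin (n + 1) → List (Fin (n + 1)) | inc σ = M ^ k ∧ ¬ SemiTorus σ n}.ncard : ℝ) ≤
        Real.exp (-(Real.exp (c * k))) *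
          ({σ : Fin (n + 1) → List (Fin (n + 1)) | inc σ = M ^ k}.ncard : ℝ) := by
  refine ⟨fun k hk => ?_, main_ n hn M lam hM hdet⟩
  have h := pk_holds (n + 1) (by omega) M lam hM k hk
  refine ⟨h, ?_, fn_holds (n + 1) (M ^ k) h.nonneg⟩
  rw [Matrix.det_pow]
  exact hdet.pow k

end Pool.Agent.Results.MP_e732b0_an.AlmostAllSubstitutions
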