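import Pool.Agent.H812R2.PI.PFin

/-!
Every unimodular irreducible Pisot substitution satisfies the Pisot substitution conjecture up to
a bounded perturbation of its powers.

Let `σ` be a unimodular irreducible Pisot substitution.  There is a constant `C` such that for
every large `n` there is a substitution `τ` with the same incidence matrix as `σ^n`, such that
the words `τ(a)` and `σ^n(a)` differ in at most `C` positions for every letter `a`, and the
substitution dynamical system of `τ` is semi-conjugate to a minimal toral translation (exactly
one preimage outside a null set).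

Written by helper812 with helpers 880, 278, 399, 551, 356, 965, 504, 1, 790, 627, 867, 152, 501,
419.
-/

namespace Pool.Agent.Results.MP_e732b0_an.BoundedPerturbation

open Pool.Agent.H812R2.PI

theorem result {m : ℕ} (_hm : 1 ≤ m) (σ : Fin (m+1) → List (Fin (m+1)))
    (hM : PisotMat (inc σ)) :
    ∃ C n₀ : ℕ, ∀ n ≥ n₀, ∃ τ : Fin (m+1) → List (Fin (m+1)), inc τ = (inc σ) ^ n ∧
      (∀ a, {t : ℕ | (τ a)[t]? ≠ (iter σ n a)[t]?}.ncard ≤ C) ∧ SemiConjToral τ :=
  perturbation σ hM

end Pool.Agent.Results.MP_e732b0_an.BoundedPerturbation
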