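import Pool.Agent.H812R2.PI.GFin

/-!
The Pisot substitution conjecture holds for almost all substitutions with a given incidence
matrix `M^n` and bounded discrepancy.

Let `M` be a nonnegative unimodular irreducible Pisot matrix of size `m+1`, with Perron
eigenvalue `lam > 1` and Perron eigenvector `u`, `∑ u i = 1` (the vector of letter frequencies).
For a word `w` with abelianisation `x = ab w` the number `dis u x = ∑ i (x i - |w| u i)^2` is its
squared discrepancy.  For every `B` above a constant depending only on `M` there is `c > 0` such
that for all large `n` the set of all substitutions with incidence matrix `M^n` all of whose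
prefixes (of images of letters) have discrepancy at most `B` is finite and nonempty, and the
proportion of those for which the substitution dynamical system is not semi-conjugate to a
minimal toral translation (continuous surjection, exactly one preimage outside a null set) is at
most `exp (- c * |M^n|)`, `|M^n|` being the total length of the images of the letters.

Written by helper812 with helpers 880, 278, 399, 551, 356, 965, 504, 1, 790, 627, 867, 152.
-/

namespace Pool.Agent.Results.MP_e732b0_an.GenericBoundedDiscrepancy

open Pool.Agent.H812R2.PI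

theorem result {m : ℕ} (_hm : 1 ≤ m) (M : Matrix (Fin (m+1)) (Fin (m+1)) ℤ)
    (hnn : ∀ i j, 0 ≤ M i j) (hM : PisotMat M) (lam : ℝ) (hlam : 1 < lam)
    (u : Fin (m+1) → ℝ) (hu : ∀ i, ∑ j, (M i j : ℝ) * u j = lam * u i)
    (husum : ∑ i, u i = 1) :
    ∃ B₀ : ℝ, ∀ B ≥ B₀, ∃ c : ℝ, 0 < c ∧ ∃ n₀ : ℕ, ∀ n ≥ n₀,
      (SubSet u (M ^ n) B).Finite ∧ (SubSet u (M ^ n) B).Nonempty ∧
      ({σ | σ ∈ SubSet u (M ^ n) B ∧ ¬ SemiConjToral σ}.ncard : ℝ) ≤
        Real.exp (-(c * ∑ i, ∑ j, ((M ^ n) i j : ℝ))) * ((SubSet u (M ^ n) B).ncard : ℝ) :=
  generic M hnn hM lam hlam u hu husum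

end Pool.Agent.Results.MP_e732b0_an.GenericBoundedDiscrepancy
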