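import Pool.Agent.H812R2.PI.JFin

/-!
Random compositions of substitutions satisfy the Pisot substitution conjecture.

Let `M` be a nonnegative unimodular irreducible Pisot matrix and let `n` be large.  Consider the
finite set of ALL substitutions with incidence matrix `M^n` (no restriction on the order of the
letters in the images).  Then all but a proportion `C exp (- c k)` of the `k`-tuples
`(τ_1, ..., τ_k)` from this set have a composition `τ_1 ∘ ... ∘ τ_k` (a unimodular irreducible
Pisot substitution with incidence matrix `M^(nk)`) whose substitution dynamical system is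
semi-conjugate to a minimal toral translation (exactly one preimage outside a null set).

Written by helper812 with helpers 880, 278, 399, 551, 356, 965, 504, 1, 790, 627, 867, 152, 501,
92.
-/

namespace Pool.Agent.Results.MP_e732b0_an.RandomComposition

open Pool.Agent.H812R2.PI

theorem result {m : ℕ} (_hm : 1 ≤ m) (M : Matrix (Fin (m+1)) (Fin (m+1)) ℤ)
    (hnn : ∀ i j, 0 ≤ M i j) (hM : PisotMat M) :
    ∃ n₀ : ℕ, ∀ n ≥ n₀, ({τ : Fin (m+1) → List (Fin (m+1)) | inc τ = M ^ n}).Finite ∧
      ∃ C c : ℝ, 0 < c ∧ ∀ k : ℕ,
      ({f : Fin k → (Fin (m+1) → List (Fin (m+1))) | (∀ i, inc (f i) = M ^ n) ∧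
        ¬ SemiConjToral (compList (List.ofFn f))}.ncard : ℝ) ≤
      C * Real.exp (-(c * k)) *
        ({τ : Fin (m+1) → List (Fin (m+1)) | inc τ = M ^ n}.ncard : ℝ) ^ k :=
  random_composition M hnn hM

end Pool.Agent.Results.MP_e732b0_an.RandomComposition
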